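import Mathlib

/-!
Extraction of a critical subgraph, and neighbours in vertex-critical graphs.
-/

set_option autoImplicit false

namespace Pool.Agent.Lib.MP_4ffbdc_co

theorem colorable_iff_fun {V : Type} (G : SimpleGraph V) (q : ℕ) :
    G.Colorable q ↔ ∃ φ : V → Fin q, ∀ x y, G.Adj x y → φ x ≠ φ y := by
  constructor
  · rintro ⟨C⟩
    exact ⟨C, fun x y h => C.valid h⟩
  · rintro ⟨φ, hφ⟩
    exact ⟨SimpleGraph.Coloring.mk φ (fun h => hφ _ _ h)⟩

theorem chrom_lt_succ_iff {V : Type} (G : SimpleGraph V) (q : ℕ) :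
    G.chromaticNumber < ((q + 1 : ℕ) : ℕ∞) ↔ G.Colorable q := by
  rw [← SimpleGraph.chromaticNumber_le_iff_colorable, Nat.cast_add, Nat.cast_one]
  exact ENat.lt_add_one_iff (ENat.natCast_ne_top q)

theorem chrom_eq_succ {V : Type} (G : SimpleGraph V) (q : ℕ) (h1 : G.Colorable (q + 1))
    (h2 : ¬ G.Colorable q) : G.chromaticNumber = ((q + 1 : ℕ) : ℕ∞) := by
  apply le_antisymm
  · exact SimpleGraph.chromaticNumber_le_iff_colorable.mpr h1
  · by_contra h
    exact h2 ((chrom_lt_succ_iff G q).mp (not_le.mp h))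

/-- A finite graph that is not `q`-colourable has an edge-minimal such spanning subgraph. -/
theorem exists_edge_minimal {V : Type} [Finite V] (Γ : SimpleGraph V) (q : ℕ)
    (hΓ : ¬ Γ.Colorable q) :
    ∃ Γ' : SimpleGraph V, Γ' ≤ Γ ∧ ¬ Γ'.Colorable q ∧
      ∀ x y, Γ'.Adj x y → (Γ'.deleteEdges {s(x, y)}).Colorable q := by
  have hwf : WellFoundedLT (SimpleGraph V) := Finite.to_wellFoundedLT
  obtain ⟨Γ', ⟨hle, hnc⟩, hmin⟩ :=
    (wellFounded_lt (α := SimpleGraph V)).has_min {G | G ≤ Γ ∧ ¬ G.Colorable q} ⟨Γ, le_rfl, hΓ⟩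
  refine ⟨Γ', hle, hnc, ?_⟩
  intro x y hxy
  by_contra h
  refine hmin (Γ'.deleteEdges {s(x, y)}) ⟨(SimpleGraph.deleteEdges_le _).trans hle, h⟩ ?_
  refine lt_of_le_of_ne (SimpleGraph.deleteEdges_le _) ?_
  intro heq
  have : (Γ'.deleteEdges {s(x, y)}).Adj x y := by rw [heq]; exact hxy
  simp at this

/-- A finite graph that is not `q`-colourable contains a `(q+1)`-critical graph, and this graph
keeps every edge whose deletion makes the big graph `q`-colourable. -/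
theorem exists_critical {V : Type} [Finite V] (Γ : SimpleGraph V) (q : ℕ) (hq : 0 < q)
    (hΓ : ¬ Γ.Colorable q) :
    ∃ m : ℕ, ∃ G : SimpleGraph (Fin m), ∃ g : Fin m → V, Function.Injective g ∧
      G.chromaticNumber = ((q + 1 : ℕ) : ℕ∞) ∧
      (∀ v w : Fin m, G.Adj v w →
        (G.deleteEdges {s(v, w)}).chromaticNumber < ((q + 1 : ℕ) : ℕ∞)) ∧
      (∀ v : Fin m, (G.induce ({v}ᶜ : Set (Fin m))).chromaticNumber < ((q + 1 : ℕ) : ℕ∞)) ∧
      (∀ x y, Γ.Adj x y → (Γ.deleteEdges {s(x, y)}).Colorable q →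
        ∃ i j, g i = x ∧ g j = y ∧ G.Adj i j) := by
  classical
  obtain ⟨Γ', hle, hnc, hmin⟩ := exists_edge_minimal Γ q hΓ
  have : Fintype Γ'.support := Fintype.ofFinite _
  let m := Fintype.card Γ'.support
  let e : Fin m ≃ Γ'.support := (Fintype.equivFin Γ'.support).symm
  let g : Fin m → V := fun i => (e i : V)
  have hg : Function.Injective g := fun i j h => e.injective (Subtype.ext h)
  have hsurj : ∀ x ∈ Γ'.support, ∃ i, g i = x := by
    intro x hx
    exact ⟨e.symm ⟨x, hx⟩, by simp [g]⟩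
  have hsupp : ∀ i, ∃ y, Γ'.Adj (g i) y := fun i => (e i).2
  let G : SimpleGraph (Fin m) := Γ'.comap g
  have hGadj : ∀ i j, G.Adj i j ↔ Γ'.Adj (g i) (g j) := fun i j => Iff.rfl
  have hedge : ∀ x y, Γ'.Adj x y → ∃ i j, g i = x ∧ g j = y ∧ G.Adj i j := by
    intro x y hxy
    obtain ⟨i, hi⟩ := hsurj x ⟨y, hxy⟩
    obtain ⟨j, hj⟩ := hsurj y ⟨x, hxy.symm⟩
    exact ⟨i, j, hi, hj, by rw [hGadj, hi, hj]; exact hxy⟩
  have hdel : ∀ v w, G.Adj v w → ∃ φ : Fin m → Fin q,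
      ∀ i j, G.Adj i j → s(i, j) ≠ s(v, w) → φ i ≠ φ j := by
    intro v w hvw
    obtain ⟨φ, hφ⟩ := (colorable_iff_fun _ _).mp (hmin _ _ hvw)
    refine ⟨fun i => φ (g i), fun i j hij hne => hφ _ _ ?_⟩
    rw [SimpleGraph.deleteEdges_adj]
    refine ⟨hij, ?_⟩
    intro h
    apply hne
    rw [Set.mem_singleton_iff, Sym2.eq_iff] at h
    rw [Sym2.eq_iff]
    rcases h with ⟨h1, h2⟩ | ⟨h1, h2⟩
    · exact Or.inl ⟨hg h1, hg h2⟩
    · exact Or.inr ⟨hg h1, hg h2⟩
  have hGnc : ¬ G.Colorable q := by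
    intro hc
    obtain ⟨φ, hφ⟩ := (colorable_iff_fun _ _).mp hc
    apply hnc
    rw [colorable_iff_fun]
    refine ⟨fun x => if hx : x ∈ Γ'.support then φ (e.symm ⟨x, hx⟩) else ⟨0, hq⟩, ?_⟩
    intro x y hxy
    have hx : x ∈ Γ'.support := ⟨y, hxy⟩
    have hy : y ∈ Γ'.support := ⟨x, hxy.symm⟩
    simp only [dif_pos hx, dif_pos hy]
    apply hφ
    rw [hGadj]
    simpa [g] using hxy
  have hGedge : ∃ v w, G.Adj v w := by
    by_contra h
    push Not at h
    apply hGnc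
    rw [colorable_iff_fun]
    exact ⟨fun _ => ⟨0, hq⟩, fun x y hxy => absurd hxy (h x y)⟩
  refine ⟨m, G, g, hg, ?_, ?_, ?_, ?_⟩
  · refine chrom_eq_succ G q ?_ hGnc
    obtain ⟨v, w, hvw⟩ := hGedge
    obtain ⟨φ, hφ⟩ := hdel v w hvw
    rw [colorable_iff_fun]
    refine ⟨fun i => if i = v then Fin.last q else (φ i).castSucc, ?_⟩
    intro i j hij
    have hne : i ≠ j := hij.ne
    by_cases hi : i = v
    · have hj : j ≠ v := fun h => hne (hi.trans h.symm)
      simp only [if_pos hi, if_neg hj]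
      exact (Fin.castSucc_lt_last _).ne'
    · by_cases hj : j = v
      · simp only [if_neg hi, if_pos hj]
        exact (Fin.castSucc_lt_last _).ne
      · simp only [if_neg hi, if_neg hj]
        intro h
        refine hφ i j hij ?_ (Fin.castSucc_injective _ h)
        intro h2
        rw [Sym2.eq_iff] at h2
        rcases h2 with ⟨h1, _⟩ | ⟨_, h1⟩
        · exact hi h1
        · exact hj h1
  · intro v w hvw
    rw [chrom_lt_succ_iff, colorable_iff_fun]
    obtain ⟨φ, hφ⟩ := hdel v w hvw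
    refine ⟨φ, fun i j hij => ?_⟩
    rw [SimpleGraph.deleteEdges_adj] at hij
    exact hφ i j hij.1 (by simpa using hij.2)
  · intro v
    rw [chrom_lt_succ_iff, colorable_iff_fun]
    obtain ⟨y, hy⟩ := hsupp v
    obtain ⟨i, w, hi, hw, hiw⟩ := hedge _ _ hy
    have hiv : i = v := hg hi
    rw [hiv] at hiw
    obtain ⟨φ, hφ⟩ := hdel v w hiw
    refine ⟨fun i => φ i.1, fun i j hij => hφ _ _ hij ?_⟩
    intro h2
    rw [Sym2.eq_iff] at h2
    rcases h2 with ⟨h1, _⟩ | ⟨_, h1⟩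
    · exact i.2 h1
    · exact j.2 h1
  · intro x y hxy hc
    apply hedge
    by_contra hn
    apply hnc
    refine hc.mono_left ?_
    intro a b hab
    rw [SimpleGraph.deleteEdges_adj]
    refine ⟨hle hab, ?_⟩
    intro h
    rw [Set.mem_singleton_iff, Sym2.eq_iff] at h
    rcases h with ⟨h1, h2⟩ | ⟨h1, h2⟩
    · exact hn (by rw [← h1, ← h2]; exact hab)
    · exact hn (by rw [← h1, ← h2]; exact hab.symm)

/-- In a vertex-critical graph every vertex has a neighbour. -/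
theorem exists_neighbour {m : ℕ} (G : SimpleGraph (Fin m)) (q : ℕ) (hq : 0 < q)
    (hnc : ¬ G.Colorable q) (v : Fin m)
    (hv : (G.induce ({v}ᶜ : Set (Fin m))).Colorable q) : ∃ w, G.Adj v w := by
  classical
  by_contra h
  push Not at h
  apply hnc
  obtain ⟨φ, hφ⟩ := (colorable_iff_fun _ _).mp hv
  rw [colorable_iff_fun]
  refine ⟨fun x => if hx : x = v then ⟨0, hq⟩ else φ ⟨x, hx⟩, ?_⟩
  intro x y hxy
  have hx : x ≠ v := fun hx => h y (hx ▸ hxy)
  have hy : y ≠ v := fun hy => h x (hy ▸ hxy.symm)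
  simp only [dif_neg hx, dif_neg hy]
  exact hφ _ _ hxy

end Pool.Agent.Lib.MP_4ffbdc_co
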