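import Mathlib

/-!
A gadget of linear size that forces a monochromatic edge of a given graph `H`.

Colours are the elements of a finite type `K` with three distinguished colours
`t`, `F false`, `F true`.  The graph `gad H t F w` contains `H`, is not `K`-colourable, and
becomes `K`-colourable after deleting an edge `uv` of `H`, provided `H` has a `K`-colouring whose
only monochromatic edge is `uv`.
-/

set_option autoImplicit false

namespace Pool.Agent.Lib.MP_4ffbdc_co

/-- Vertices of the gadget graph. -/
inductive W (N : ℕ) (K : Type) : Type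
  | h (v : Fin N) : W N K
  | pal (c : K) : W N K
  | a (s : Bool) (v : Fin N) : W N K
  | y (s : Bool) (v : Fin N) (j : K) : W N K
  | z (s : Bool) (v : Fin N) (j : K) : W N K
  | p (s : Bool) (v : Fin N) : W N K
  | r (s : Bool) (i : Fin (N + 1)) : W N K

variable {N : ℕ} {K : Type}

/-- An injective code of the vertices, used to bound their number. -/
def enc (t : K) : W N K → Fin 7 × Bool × Fin (N + 1) × K
  | .h v => (0, false, v.castSucc, t)
  | .pal c => (1, false, 0, c)
  | .a s v => (2, s, v.castSucc, t)
  | .y s v j => (3, s, v.castSucc, j)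
  | .z s v j => (4, s, v.castSucc, j)
  | .p s v => (5, s, v.castSucc, t)
  | .r s i => (6, s, i, t)

theorem enc_injective (t : K) : Function.Injective (enc (N := N) t) := by
  intro x y hxy
  cases x <;> cases y <;> simp_all [enc]

theorem finite_W [Finite K] (t : K) : Finite (W N K) :=
  Finite.of_injective _ (enc_injective t)

theorem card_W_le [Fintype K] (t : K) :
    Nat.card (W N K) ≤ 14 * (N + 1) * Fintype.card K := by
  have h := Nat.card_le_card_of_injective _ (enc_injective (N := N) t)
  simp only [Nat.card_eq_fintype_card, Fintype.card_prod, Fintype.card_fin,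
    Fintype.card_bool] at h
  calc Nat.card (W N K) ≤ 7 * (2 * ((N + 1) * Fintype.card K)) := h
    _ = 14 * (N + 1) * Fintype.card K := by ring

/-- The edges of the gadget graph, each listed in one direction. -/
inductive Rel (H : SimpleGraph (Fin N)) (t : K) (F : Bool → K) (w : K → K) :
    W N K → W N K → Prop
  | hh {u v : Fin N} : H.Adj u v → Rel H t F w (.h u) (.h v)
  | palpal {c d : K} : c ≠ d → Rel H t F w (.pal c) (.pal d)
  | pala {s : Bool} {v : Fin N} {c : K} : c ≠ t → c ≠ F s → Rel H t F w (.pal c) (.a s v)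
  | ab {u v : Fin N} : ¬ H.Adj u v → Rel H t F w (.a false u) (.a true v)
  | hy {s : Bool} {v : Fin N} {j : K} : Rel H t F w (.h v) (.y s v j)
  | paly {s : Bool} {v : Fin N} {j c : K} : c ≠ j → c ≠ w j → Rel H t F w (.pal c) (.y s v j)
  | yz {s : Bool} {v : Fin N} {j : K} : j ≠ t → Rel H t F w (.y s v j) (.z s v j)
  | palz {s : Bool} {v : Fin N} {j c : K} : c ≠ w j → c ≠ t → Rel H t F w (.pal c) (.z s v j)
  | za {s : Bool} {v : Fin N} {j : K} : j ≠ t → Rel H t F w (.z s v j) (.a s v)
  | palp {s : Bool} {v : Fin N} {c : K} : c ≠ t → c ≠ F s → c ≠ F (!s) →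
      Rel H t F w (.pal c) (.p s v)
  | pa {s : Bool} {v : Fin N} : Rel H t F w (.p s v) (.a s v)
  | pr1 {s : Bool} {v : Fin N} : Rel H t F w (.p s v) (.r s v.castSucc)
  | pr2 {s : Bool} {v : Fin N} : Rel H t F w (.p s v) (.r s v.succ)
  | palr {s : Bool} {i : Fin (N + 1)} {c : K} : c ≠ t → c ≠ F (!s) →
      Rel H t F w (.pal c) (.r s i)
  | palr0 {s : Bool} : Rel H t F w (.pal (F (!s))) (.r s 0)
  | palrl {s : Bool} : Rel H t F w (.pal t) (.r s (Fin.last N))

/-- The gadget graph. -/
def gad (H : SimpleGraph (Fin N)) (t : K) (F : Bool → K) (w : K → K) : SimpleGraph (W N K) :=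
  SimpleGraph.fromRel (Rel H t F w)

theorem rel_ne {H : SimpleGraph (Fin N)} {t : K} {F : Bool → K} {w : K → K} {x y : W N K}
    (h : Rel H t F w x y) : x ≠ y := by
  cases h <;> simp_all
  case hh u v huv => exact huv.ne

theorem gad_adj_of_rel {H : SimpleGraph (Fin N)} {t : K} {F : Bool → K} {w : K → K}
    {x y : W N K} (h : Rel H t F w x y) : (gad H t F w).Adj x y := by
  unfold gad
  rw [SimpleGraph.fromRel_adj]
  exact ⟨rel_ne h, Or.inl h⟩

/-- A colouring that respects the palette cannot be proper. -/
theorem no_normal_colouring {H : SimpleGraph (Fin N)} {t : K} {F : Bool → K} {w : K → K}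
    (ψ : W N K → K) (hpal : ∀ c, ψ (.pal c) = c)
    (hψ : ∀ x y, Rel H t F w x y → ψ x ≠ ψ y) : False := by
  have hl : ∀ c x, Rel H t F w (.pal c) x → ψ x ≠ c := by
    intro c x hx h
    exact hψ _ _ hx (by rw [hpal, h])
  have hex : ∀ s : Bool, ∃ v : Fin N, ψ (.a s v) = t := by
    intro s
    by_contra hne
    push Not at hne
    have haF : ∀ v, ψ (.a s v) = F s := by
      intro v
      by_contra h
      exact hl _ _ (Rel.pala (hne v) h) rfl
    have hr : ∀ i : Fin (N + 1), ψ (.r s i) = t := by
      intro i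
      induction i using Fin.induction with
      | zero =>
        by_contra h
        exact hl _ _ (Rel.palr h (hl _ _ Rel.palr0)) rfl
      | succ v ih =>
        have h1 : ψ (.p s v) ≠ t := by
          have := hψ _ _ (Rel.pr1 (H := H) (t := t) (F := F) (w := w) (s := s) (v := v))
          rwa [ih] at this
        have h2 : ψ (.p s v) ≠ F s := by
          have := hψ _ _ (Rel.pa (H := H) (t := t) (F := F) (w := w) (s := s) (v := v))
          rwa [haF] at this
        have h3 : ψ (.p s v) = F (!s) := by
          by_contra h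
          exact hl _ _ (Rel.palp h1 h2 h) rfl
        have h4 : ψ (.r s v.succ) ≠ F (!s) := by
          have := hψ _ _ (Rel.pr2 (H := H) (t := t) (F := F) (w := w) (s := s) (v := v))
          rw [h3] at this
          exact this.symm
        by_contra h
        exact hl _ _ (Rel.palr h h4) rfl
    exact hl _ _ Rel.palrl (hr _)
  have himp : ∀ (s : Bool) (v : Fin N), ψ (.a s v) = t → ψ (.h v) = t := by
    intro s v hv
    by_contra hj
    have h1 : ψ (.y s v (ψ (.h v))) ≠ ψ (.h v) :=
      (hψ _ _ (Rel.hy (H := H) (t := t) (F := F) (w := w))).symm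
    have h2 : ψ (.y s v (ψ (.h v))) = w (ψ (.h v)) := by
      by_contra h
      exact hl _ _ (Rel.paly h1 h) rfl
    have h3 : ψ (.z s v (ψ (.h v))) ≠ w (ψ (.h v)) := by
      have := hψ _ _ (Rel.yz (H := H) (F := F) (w := w) (s := s) (v := v) hj)
      rw [h2] at this
      exact this.symm
    have h4 : ψ (.z s v (ψ (.h v))) = t := by
      by_contra h
      exact hl _ _ (Rel.palz h3 h) rfl
    have h5 := hψ _ _ (Rel.za (H := H) (F := F) (w := w) (s := s) (v := v) hj)
    rw [h4, hv] at h5
    exact h5 rfl
  obtain ⟨u, hu⟩ := hex false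
  obtain ⟨v, hv⟩ := hex true
  by_cases huv : H.Adj u v
  · exact hψ _ _ (Rel.hh huv) (by rw [himp _ _ hu, himp _ _ hv])
  · exact hψ _ _ (Rel.ab huv) (by rw [hu, hv])

/-- The gadget graph has no proper colouring with colours in `K`. -/
theorem gad_not_colourable [Finite K] {H : SimpleGraph (Fin N)} {t : K} {F : Bool → K}
    {w : K → K} (ψ : W N K → K) (hψ : ∀ x y, (gad H t F w).Adj x y → ψ x ≠ ψ y) : False := by
  have hinj : Function.Injective (fun c : K => ψ (.pal c)) := by
    intro c d hcd
    by_contra h
    exact hψ _ _ (gad_adj_of_rel (Rel.palpal h)) hcd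
  have hbij : Function.Bijective (fun c : K => ψ (.pal c)) :=
    Finite.injective_iff_bijective.mp hinj
  let σ : K ≃ K := Equiv.ofBijective _ hbij
  refine no_normal_colouring (H := H) (t := t) (F := F) (w := w) (fun x => σ.symm (ψ x)) ?_ ?_
  · intro c
    rw [Equiv.symm_apply_eq]
    rfl
  · intro x y hxy h
    exact hψ _ _ (gad_adj_of_rel hxy) (σ.symm.injective h)

/-- The colouring of the gadget that extends a colouring `φ` of `H` with one monochromatic edge,
whose ends are `e false` and `e true`. -/
noncomputable def ext (t : K) (F : Bool → K) (w : K → K) (φ : Fin N → K) (e : Bool → Fin N) :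
    W N K → K := by
  classical
  exact fun x => match x with
  | .h v => φ v
  | .pal c => c
  | .a s v => if v = e s then t else F s
  | .y _ v j => if φ v = j then w j else j
  | .z s v j => if φ v = j then t else (if v = e s then w j else t)
  | .p s v => if v < e s then F (!s) else (if v = e s then F s else t)
  | .r s i => if i ≤ (e s).castSucc then t else F (!s)

theorem ext_proper {H : SimpleGraph (Fin N)} {t : K} {F : Bool → K} {w : K → K}
    (hFt : ∀ s, F s ≠ t) (hFF : ∀ s, F s ≠ F (!s)) (hw1 : ∀ j, w j ≠ j) (hw2 : ∀ j, w j ≠ t)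
    (φ : Fin N → K) (e : Bool → Fin N) (he : H.Adj (e false) (e true))
    (hφe : ∀ s, φ (e s) = t)
    (hφ : ∀ x y, H.Adj x y → φ x = φ y → s(x, y) = s(e false, e true))
    {x y : W N K} (hxy : Rel H t F w x y)
    (hne : s(x, y) ≠ s(W.h (e false), W.h (e true))) :
    ext t F w φ e x ≠ ext t F w φ e y := by
  have hFF' : ∀ s, F (!s) ≠ F s := fun s => (hFF s).symm
  have htF : ∀ s, t ≠ F s := fun s => (hFt s).symm
  have hw1' : ∀ j, j ≠ w j := fun j => (hw1 j).symm
  have hw2' : ∀ j, t ≠ w j := fun j => (hw2 j).symm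
  cases hxy with
  | hh huv =>
    intro h
    apply hne
    have := hφ _ _ huv h
    rw [Sym2.eq_iff] at this ⊢
    rcases this with ⟨h1, h2⟩ | ⟨h1, h2⟩
    · exact Or.inl ⟨by rw [h1], by rw [h2]⟩
    · exact Or.inr ⟨by rw [h1], by rw [h2]⟩
  | palpal h => exact h
  | pala h1 h2 =>
    simp only [ext]
    split_ifs <;> assumption
  | @ab u v huv =>
    simp only [ext]
    split_ifs with h1 h2 h2
    · exact absurd (by rw [h1, h2]; exact he) huv
    · exact htF _
    · exact hFt _
    · exact hFF false
  | @hy s v j =>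
    simp only [ext]
    split_ifs with h1
    · rw [h1]; exact hw1' _
    · exact h1
  | paly h1 h2 =>
    simp only [ext]
    split_ifs <;> assumption
  | yz hj =>
    simp only [ext]
    split_ifs
    · exact hw2 _
    · exact hw1' _
    · exact hj
  | palz h1 h2 =>
    simp only [ext]
    split_ifs <;> assumption
  | @za s v j hj =>
    simp only [ext]
    split_ifs with h1 h2 h2
    · exact absurd (by rw [← h1, h2, hφe]) hj
    · exact htF _
    · exact hw2 _
    · exact htF _
  | palp h1 h2 h3 =>
    simp only [ext]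
    split_ifs <;> assumption
  | @pa s v =>
    simp only [ext]
    split_ifs with h1 h2 h2
    · exact hFt _
    · exact hFF' _
    · exact hFt _
    · exact htF _
  | @pr1 s v =>
    simp only [ext, Fin.castSucc_le_castSucc_iff]
    split_ifs with h1 h2 h2 h3 h3
    · exact hFt _
    · exact absurd h1.le h2
    · exact hFt _
    · exact absurd h2.le h3
    · exact absurd (lt_of_le_of_ne h3 h2) h1
    · exact htF _
  | @pr2 s v =>
    simp only [ext, Fin.succ_le_castSucc_iff]
    split_ifs with h1 h2
    · exact hFt _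
    · exact hFF _
    · exact htF _
  | palr h1 h2 =>
    simp only [ext]
    split_ifs <;> assumption
  | @palr0 s =>
    simp only [ext, Fin.zero_le, if_true]
    exact hFt _
  | @palrl s =>
    simp only [ext]
    rw [if_neg (not_le.mpr (Fin.castSucc_lt_last _))]
    exact htF _

/-- Deleting an edge of `H` that is the only monochromatic edge of a colouring of `H` makes the
gadget graph colourable. -/
theorem gad_delete_colourable {H : SimpleGraph (Fin N)} {t : K} {F : Bool → K} {w : K → K}
    (hFt : ∀ s, F s ≠ t) (hFF : ∀ s, F s ≠ F (!s)) (hw1 : ∀ j, w j ≠ j) (hw2 : ∀ j, w j ≠ t)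
    {u v : Fin N} (huv : H.Adj u v) (φ : Fin N → K) (hφuv : φ u = φ v)
    (hφ : ∀ x y, H.Adj x y → φ x = φ y → s(x, y) = s(u, v)) :
    ∃ ψ : W N K → K, ∀ x y, (gad H t F w).Adj x y → s(x, y) ≠ s(W.h u, W.h v) →
      ψ x ≠ ψ y := by
  classical
  let φ' : Fin N → K := fun x => Equiv.swap (φ u) t (φ x)
  let e : Bool → Fin N := fun s => cond s v u
  have hφe : ∀ s, φ' (e s) = t := by
    intro s
    cases s
    · simp [φ', e]
    · simp [φ', e, ← hφuv]
  have hφ' : ∀ x y, H.Adj x y → φ' x = φ' y → s(x, y) = s(e false, e true) := by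
    intro x y hxy h
    exact hφ x y hxy ((Equiv.swap (φ u) t).injective h)
  refine ⟨ext t F w φ' e, ?_⟩
  intro x y hxy hne
  unfold gad at hxy
  rw [SimpleGraph.fromRel_adj] at hxy
  rcases hxy.2 with h | h
  · exact ext_proper hFt hFF hw1 hw2 φ' e huv hφe hφ' h hne
  · refine (ext_proper hFt hFF hw1 hw2 φ' e huv hφe hφ' h ?_).symm
    rw [Sym2.eq_swap]
    exact hne

end Pool.Agent.Lib.MP_4ffbdc_co
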