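import Mathlib

/-!
Dyadic blocks: for every level `r < Q` the vertices `0, …, N - 1` are cut into intervals of length
`sz Q r`, the largest power of two that is at most `Q - r`.
-/

set_option autoImplicit false

namespace Pool.Agent.Lib.MP_4ffbdc_co

/-- the block length on level `r` -/
def sz (Q r : ℕ) : ℕ := 2 ^ Nat.log 2 (Q - r)

theorem sz_pos (Q r : ℕ) : 0 < sz Q r := by
  unfold sz
  positivity

theorem sz_le {Q r : ℕ} (h : r < Q) : sz Q r + r ≤ Q := by
  have := Nat.pow_log_le_self 2 (show Q - r ≠ 0 by omega)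
  unfold sz
  omega

theorem sz_dvd (Q : ℕ) {r r' : ℕ} (h : r' ≤ r) : sz Q r ∣ sz Q r' :=
  pow_dvd_pow 2 (Nat.log_mono_right (by omega))

theorem div_sz (Q : ℕ) {r r' : ℕ} (h : r' ≤ r) (v : ℕ) :
    v / sz Q r' = v / sz Q r / (sz Q r' / sz Q r) := by
  rw [Nat.div_div_eq_div_mul, Nat.mul_div_cancel' (sz_dvd Q h)]

theorem card_block (N s b : ℕ) (hs : 0 < s) :
    (Finset.univ.filter fun v : Fin N => (v : ℕ) / s = b).card ≤ s := by
  refine le_trans (Finset.card_le_card_of_injOn (t := Finset.range s) (fun v => (v : ℕ) % s)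
    (fun v _ => Finset.mem_coe.2 (Finset.mem_range.2 (Nat.mod_lt _ hs))) ?_) (by simp)
  intro u hu v hv h
  have h1 : (u : ℕ) / s = b := (Finset.mem_filter.1 (Finset.mem_coe.1 hu)).2
  have h2 : (v : ℕ) / s = b := (Finset.mem_filter.1 (Finset.mem_coe.1 hv)).2
  have h3 : (u : ℕ) % s = (v : ℕ) % s := h
  apply Fin.ext
  rw [← Nat.div_add_mod u s, ← Nat.div_add_mod v s, h1, h2, h3]

/-- every colouring of the vertices extends to the blocks, greedily from the top level -/
theorem exists_block_colouring {N Q : ℕ} (φ : Fin N → Fin (Q + 1)) (m : ℕ) (hm : m ≤ Q) :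
    ∃ ζ : ℕ → ℕ → Fin (Q + 1), ∀ r < m, ∀ b : ℕ,
      (∀ v : Fin N, (v : ℕ) / sz Q r = b → ζ r b ≠ φ v) ∧
      ∀ r' < r, ζ r b ≠ ζ r' (b / (sz Q r' / sz Q r)) := by
  classical
  induction m with
  | zero => exact ⟨fun _ _ => 0, fun r hr => absurd hr (Nat.not_lt_zero r)⟩
  | succ m ih =>
    obtain ⟨ζ, hζ⟩ := ih (by omega)
    have hex : ∀ b : ℕ, ∃ c : Fin (Q + 1), (∀ v : Fin N, (v : ℕ) / sz Q m = b → c ≠ φ v) ∧
        ∀ r' < m, c ≠ ζ r' (b / (sz Q r' / sz Q m)) := fun b => by
      have h1 : (((Finset.univ.filter fun v : Fin N => (v : ℕ) / sz Q m = b).image φ) ∪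
          ((Finset.range m).image fun r' => ζ r' (b / (sz Q r' / sz Q m)))).card <
          (Finset.univ : Finset (Fin (Q + 1))).card := by
        refine lt_of_le_of_lt (Finset.card_union_le _ _) ?_
        have a1 := (Finset.card_image_le (f := φ)).trans (card_block N _ b (sz_pos Q m))
        have a2 := Finset.card_image_le (s := Finset.range m)
          (f := fun r' => ζ r' (b / (sz Q r' / sz Q m)))
        have a3 := sz_le (show m < Q by omega)
        rw [Finset.card_range] at a2
        rw [Finset.card_univ, Fintype.card_fin]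
        omega
      obtain ⟨c, -, hc⟩ := Finset.exists_mem_notMem_of_card_lt_card h1
      refine ⟨c, fun v hv h => hc ?_, fun r' hr' h => hc ?_⟩
      · exact Finset.mem_union_left _ (Finset.mem_image.2
          ⟨v, Finset.mem_filter.2 ⟨Finset.mem_univ _, hv⟩, h.symm⟩)
      · exact Finset.mem_union_right _ (Finset.mem_image.2 ⟨r', Finset.mem_range.2 hr', h.symm⟩)
    choose c hc using hex
    refine ⟨fun r b => if r = m then c b else ζ r b, fun r hr b => ?_⟩
    by_cases h : r = m
    · subst h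
      refine ⟨by simpa using (hc b).1, fun r' hr' => ?_⟩
      simp only [if_true, if_neg hr'.ne]
      exact (hc b).2 r' hr'
    · have h1 : r < m := by omega
      refine ⟨by simpa only [if_neg h] using (hζ r h1 b).1, fun r' hr' => ?_⟩
      simp only [if_neg h, if_neg (show r' ≠ m by omega)]
      exact (hζ r h1 b).2 r' hr'

theorem sum_dyadic (N L : ℕ) :
    ∑ j ∈ Finset.range (2 ^ L - 1), N / 2 ^ Nat.log 2 (j + 1) ≤ N * L := by
  induction L with
  | zero => simp
  | succ L ih =>
    have h0 : 0 < 2 ^ L := by positivity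
    have h1 : 2 ^ (L + 1) - 1 = (2 ^ L - 1) + 2 ^ L := by
      rw [pow_succ]
      omega
    rw [h1, Finset.sum_range_add]
    have h2 : ∀ j ∈ Finset.range (2 ^ L), N / 2 ^ Nat.log 2 (2 ^ L - 1 + j + 1) ≤ N / 2 ^ L := by
      intro j _
      refine Nat.div_le_div_left (Nat.pow_le_pow_right (by norm_num) ?_) h0
      exact Nat.le_log_of_pow_le (by norm_num) (by omega)
    have h3 := Finset.sum_le_card_nsmul _ _ _ h2
    rw [Finset.card_range, smul_eq_mul] at h3
    have h4 := Nat.mul_div_le N (2 ^ L)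
    rw [Nat.mul_succ]
    omega

/-- the number of blocks -/
theorem sum_blocks (N Q : ℕ) :
    ∑ r : Fin Q, (N / sz Q r + 1) ≤ N * (Nat.log 2 Q + 1) + Q := by
  rw [Finset.sum_add_distrib, Fin.sum_univ_eq_sum_range (fun r => N / sz Q r) Q]
  simp only [Finset.sum_const, Finset.card_univ, Fintype.card_fin, smul_eq_mul, mul_one]
  refine Nat.add_le_add_right ?_ Q
  rw [← Finset.sum_range_reflect]
  have h1 : ∀ j ∈ Finset.range Q, N / sz Q (Q - 1 - j) = N / 2 ^ Nat.log 2 (j + 1) := by
    intro j hj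
    have := Finset.mem_range.1 hj
    unfold sz
    rw [show Q - (Q - 1 - j) = j + 1 by omega]
  rw [Finset.sum_congr rfl h1]
  refine le_trans (Finset.sum_le_sum_of_subset ?_) (sum_dyadic N _)
  have := Nat.lt_pow_succ_log_self (show 1 < 2 by norm_num) Q
  exact Finset.range_subset_range.2 (by simp only [Nat.succ_eq_add_one] at this; omega)

end Pool.Agent.Lib.MP_4ffbdc_co
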