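import Mathlib
import Pool.Agent.Lib.MP_4ffbdc_co.LogBlocks

/-!
A gadget with `O(N log q + q)` vertices that forces a monochromatic edge of a given graph `H`.
Every vertex of `H` gets a clique of `q - 1` neighbours; the cliques are shared along dyadic blocks.
-/

set_option autoImplicit false

namespace Pool.Agent.Lib.MP_4ffbdc_co.Log

/-- the blocks of all levels -/
abbrev Blk (N Q : ℕ) : Type := (r : Fin Q) × Fin (N / sz Q r + 1)

/-- `v` lies in the block `i` -/
def InB {N Q : ℕ} (v : Fin N) (i : Blk N Q) : Prop := (v : ℕ) / sz Q i.1 = i.2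

/-- the block of `v` on level `r` -/
def blk {N Q : ℕ} (v : Fin N) (r : Fin Q) : Blk N Q :=
  ⟨r, ⟨(v : ℕ) / sz Q r, Nat.lt_succ_of_le (Nat.div_le_div_right v.2.le)⟩⟩

theorem inB_blk {N Q : ℕ} (v : Fin N) (r : Fin Q) : InB v (blk v r) := rfl

/-- Vertices of the gadget graph. -/
inductive W (N Q : ℕ) : Type
  | h (v : Fin N) : W N Q
  | pal (c : Fin (Q + 1)) : W N Q
  | a (s : Bool) (v : Fin N) : W N Q
  | m (s : Bool) (v : Fin N) : W N Q
  | b (s : Bool) (v : Fin N) : W N Q
  | p (s : Bool) (v : Fin N) : W N Q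
  | r (s : Bool) (i : Fin (N + 1)) : W N Q
  | z (i : Blk N Q) : W N Q
  | w (i : Blk N Q) : W N Q
  | g (s : Bool) (i : Blk N Q) : W N Q

variable {N Q : ℕ}

/-- An injective code of the vertices, used to bound their number. -/
def enc : W N Q → (Fin N ⊕ Fin (Q + 1)) ⊕ ((Fin 4 × Bool × Fin N) ⊕ (Bool × Fin (N + 1))) ⊕
    (Bool × Bool × Blk N Q)
  | .h v => .inl (.inl v)
  | .pal c => .inl (.inr c)
  | .a s v => .inr (.inl (.inl (0, s, v)))
  | .m s v => .inr (.inl (.inl (1, s, v)))
  | .b s v => .inr (.inl (.inl (2, s, v)))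
  | .p s v => .inr (.inl (.inl (3, s, v)))
  | .r s i => .inr (.inl (.inr (s, i)))
  | .z i => .inr (.inr (false, false, i))
  | .w i => .inr (.inr (false, true, i))
  | .g s i => .inr (.inr (true, s, i))

theorem enc_injective : Function.Injective (enc (N := N) (Q := Q)) := by
  intro x y hxy
  cases x <;> cases y <;> simp_all [enc]

theorem finite_W : Finite (W N Q) := Finite.of_injective _ enc_injective

theorem card_W_le : Nat.card (W N Q) ≤ 4 * (N * Nat.log 2 Q) + 15 * N + 5 * Q + 3 := by
  have h := Nat.card_le_card_of_injective _ (enc_injective (N := N) (Q := Q))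
  have h2 := sum_blocks N Q
  simp only [Nat.card_eq_fintype_card, Fintype.card_prod, Fintype.card_fin, Fintype.card_sum,
    Fintype.card_bool, Fintype.card_sigma] at h
  rw [Nat.mul_succ] at h2
  omega

/-- The edges of the gadget graph, each listed in one direction. -/
inductive Rel (H : SimpleGraph (Fin N)) (t : Fin (Q + 1)) (F : Bool → Fin (Q + 1)) :
    W N Q → W N Q → Prop
  | hh {u v : Fin N} : H.Adj u v → Rel H t F (.h u) (.h v)
  | palpal {c d : Fin (Q + 1)} : c ≠ d → Rel H t F (.pal c) (.pal d)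
  | pala {s : Bool} {v : Fin N} {c : Fin (Q + 1)} : c ≠ t → c ≠ F s → Rel H t F (.pal c) (.a s v)
  | ab {u v : Fin N} : ¬ H.Adj u v → Rel H t F (.a false u) (.a true v)
  | palm {s : Bool} {v : Fin N} {c : Fin (Q + 1)} : c ≠ t → c ≠ F (!s) →
      Rel H t F (.pal c) (.m s v)
  | palb {s : Bool} {v : Fin N} {c : Fin (Q + 1)} : c ≠ t → c ≠ F (!s) →
      Rel H t F (.pal c) (.b s v)
  | am {s : Bool} {v : Fin N} : Rel H t F (.a s v) (.m s v)
  | mb {s : Bool} {v : Fin N} : Rel H t F (.m s v) (.b s v)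
  | ag {s : Bool} {v : Fin N} {i : Blk N Q} : InB v i → Rel H t F (.a s v) (.g (!s) i)
  | bg {s : Bool} {v : Fin N} {i : Blk N Q} : InB v i → Rel H t F (.b s v) (.g s i)
  | palg {s : Bool} {i : Blk N Q} {c : Fin (Q + 1)} : c ≠ t → c ≠ F s →
      Rel H t F (.pal c) (.g s i)
  | gw {s : Bool} {i : Blk N Q} : Rel H t F (.g s i) (.w i)
  | palw {i : Blk N Q} {c : Fin (Q + 1)} : c ≠ t → c ≠ F false → c ≠ F true →
      Rel H t F (.pal c) (.w i)
  | wz {i : Blk N Q} : Rel H t F (.w i) (.z i)
  | zh {v : Fin N} {i : Blk N Q} : InB v i → Rel H t F (.z i) (.h v)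
  | zz {v : Fin N} {i j : Blk N Q} : InB v i → InB v j → j.1 < i.1 → Rel H t F (.z i) (.z j)
  | palp {s : Bool} {v : Fin N} {c : Fin (Q + 1)} : c ≠ t → c ≠ F s → c ≠ F (!s) →
      Rel H t F (.pal c) (.p s v)
  | pa {s : Bool} {v : Fin N} : Rel H t F (.p s v) (.a s v)
  | pr1 {s : Bool} {v : Fin N} : Rel H t F (.p s v) (.r s v.castSucc)
  | pr2 {s : Bool} {v : Fin N} : Rel H t F (.p s v) (.r s v.succ)
  | palr {s : Bool} {i : Fin (N + 1)} {c : Fin (Q + 1)} : c ≠ t → c ≠ F (!s) →
      Rel H t F (.pal c) (.r s i)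
  | palr0 {s : Bool} : Rel H t F (.pal (F (!s))) (.r s 0)
  | palrl {s : Bool} : Rel H t F (.pal t) (.r s (Fin.last N))

/-- The gadget graph. -/
def gad (H : SimpleGraph (Fin N)) (t : Fin (Q + 1)) (F : Bool → Fin (Q + 1)) :
    SimpleGraph (W N Q) :=
  SimpleGraph.fromRel (Rel H t F)

variable {H : SimpleGraph (Fin N)} {t : Fin (Q + 1)} {F : Bool → Fin (Q + 1)}

theorem rel_ne {x y : W N Q} (h : Rel H t F x y) : x ≠ y := by
  cases h
  case hh u v huv => exact fun h => huv.ne (by injection h)
  case zz v i j _ _ hij =>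
    intro h
    injection h with h
    rw [h] at hij
    exact lt_irrefl _ hij
  all_goals simp_all

theorem gad_adj_of_rel {x y : W N Q} (h : Rel H t F x y) : (gad H t F).Adj x y := by
  unfold gad
  rw [SimpleGraph.fromRel_adj]
  exact ⟨rel_ne h, Or.inl h⟩

theorem adj_of_gad {u v : Fin N} (h : (gad H t F).Adj (.h u) (.h v)) : H.Adj u v := by
  unfold gad at h
  rw [SimpleGraph.fromRel_adj] at h
  rcases h.2 with h | h
  · cases h
    assumption
  · cases h
    exact SimpleGraph.Adj.symm (by assumption)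

/-- A colouring that respects the palette cannot be proper. -/
theorem no_normal_colouring (ψ : W N Q → Fin (Q + 1)) (hpal : ∀ c, ψ (.pal c) = c)
    (hψ : ∀ x y, Rel H t F x y → ψ x ≠ ψ y) : False := by
  have hl : ∀ c x, Rel H t F (.pal c) x → ψ x ≠ c := by
    intro c x hx h
    exact hψ _ _ hx (by rw [hpal, h])
  have hex : ∀ s : Bool, ∃ v : Fin N, ψ (.a s v) = t := by
    intro s
    by_contra hne
    push Not at hne
    have haF : ∀ v, ψ (.a s v) = F s := by
      intro v
      by_contra h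
      exact hl _ _ (Rel.pala (hne v) h) rfl
    have hr : ∀ i : Fin (N + 1), ψ (.r s i) = t := by
      intro i
      induction i using Fin.induction with
      | zero =>
        by_contra h
        exact hl _ _ (Rel.palr h (hl _ _ Rel.palr0)) rfl
      | succ v ih =>
        have h1 : ψ (.p s v) ≠ t := by
          have := hψ _ _ (Rel.pr1 (s := s) (v := v))
          rwa [ih] at this
        have h2 : ψ (.p s v) ≠ F s := by
          have := hψ _ _ (Rel.pa (s := s) (v := v))
          rwa [haF] at this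
        have h3 : ψ (.p s v) = F (!s) := by
          by_contra h
          exact hl _ _ (Rel.palp h1 h2 h) rfl
        have h4 : ψ (.r s v.succ) ≠ F (!s) := by
          have := hψ _ _ (Rel.pr2 (s := s) (v := v))
          rw [h3] at this
          exact this.symm
        by_contra h
        exact hl _ _ (Rel.palr h h4) rfl
    exact hl _ _ Rel.palrl (hr _)
  have himp : ∀ (s : Bool) (v : Fin N), ψ (.a s v) = t → ψ (.h v) = t := by
    intro s v hv
    have h1 : ψ (.m s v) = F (!s) := by
      by_contra h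
      exact hl _ _ (Rel.palm (hv ▸ (hψ _ _ (Rel.am (s := s) (v := v))).symm) h) rfl
    have h2 : ψ (.b s v) = t := by
      by_contra h
      exact hl _ _ (Rel.palb h (h1 ▸ (hψ _ _ (Rel.mb (s := s) (v := v))).symm)) rfl
    have h3 : ∀ i, InB v i → ψ (.z i) ≠ t := by
      intro i hi
      have g1 : ψ (.g (!s) i) = F (!s) := by
        by_contra h
        exact hl _ _ (Rel.palg (hv ▸ (hψ _ _ (Rel.ag (s := s) hi)).symm) h) rfl
      have g2 : ψ (.g s i) = F s := by
        by_contra h
        exact hl _ _ (Rel.palg (h2 ▸ (hψ _ _ (Rel.bg (s := s) hi)).symm) h) rfl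
      have g3 : ∀ s', ψ (.w i) ≠ F s' := by
        intro s'
        have g4 : ψ (.g s' i) = F s' := by
          cases s <;> cases s' <;> assumption
        exact g4 ▸ (hψ _ _ (Rel.gw (s := s') (i := i))).symm
      have g5 : ψ (.w i) = t := by
        by_contra h
        exact hl _ _ (Rel.palw h (g3 _) (g3 _)) rfl
      exact g5 ▸ (hψ _ _ (Rel.wz (i := i))).symm
    by_contra hj
    have h4 : Function.Injective fun r : Fin Q => ψ (.z (blk v r)) := by
      intro r r' h
      rcases lt_trichotomy r r' with h5 | h5 | h5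
      · exact absurd h.symm (hψ _ _ (Rel.zz (inB_blk v r') (inB_blk v r) h5))
      · exact h5
      · exact absurd h (hψ _ _ (Rel.zz (inB_blk v r) (inB_blk v r') h5))
    have h5 := Finset.card_le_card_of_injOn (s := (Finset.univ : Finset (Fin Q)))
      (t := (Finset.univ.erase t).erase (ψ (.h v))) (fun r : Fin Q => ψ (.z (blk v r)))
      (fun r _ => Finset.mem_coe.2 (Finset.mem_erase.2 ⟨hψ _ _ (Rel.zh (inB_blk v r)),
        Finset.mem_erase.2 ⟨h3 _ (inB_blk v r), Finset.mem_univ _⟩⟩)) h4.injOn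
    have h6 : 0 < (Finset.univ.erase t).card :=
      Finset.card_pos.2 ⟨_, Finset.mem_erase.2 ⟨hj, Finset.mem_univ _⟩⟩
    rw [Finset.card_erase_of_mem (Finset.mem_erase.2 ⟨hj, Finset.mem_univ _⟩)] at h5
    rw [Finset.card_erase_of_mem (Finset.mem_univ _)] at h5 h6
    simp only [Finset.card_univ, Fintype.card_fin] at h5 h6
    omega
  obtain ⟨u, hu⟩ := hex false
  obtain ⟨v, hv⟩ := hex true
  by_cases huv : H.Adj u v
  · exact hψ _ _ (Rel.hh huv) (by rw [himp _ _ hu, himp _ _ hv])
  · exact hψ _ _ (Rel.ab huv) (by rw [hu, hv])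

/-- The gadget graph has no proper colouring with `Q + 1` colours. -/
theorem gad_not_colourable (ψ : W N Q → Fin (Q + 1))
    (hψ : ∀ x y, (gad H t F).Adj x y → ψ x ≠ ψ y) : False := by
  have hinj : Function.Injective (fun c : Fin (Q + 1) => ψ (.pal c)) := by
    intro c d hcd
    by_contra h
    exact hψ _ _ (gad_adj_of_rel (Rel.palpal h)) hcd
  have hbij : Function.Bijective (fun c : Fin (Q + 1) => ψ (.pal c)) :=
    Finite.injective_iff_bijective.mp hinj
  let σ : Fin (Q + 1) ≃ Fin (Q + 1) := Equiv.ofBijective _ hbij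
  refine no_normal_colouring (H := H) (t := t) (F := F) (fun x => σ.symm (ψ x)) ?_ ?_
  · intro c
    rw [Equiv.symm_apply_eq]
    rfl
  · intro x y hxy h
    exact hψ _ _ (gad_adj_of_rel hxy) (σ.symm.injective h)

/-- The colouring of the gadget that extends a colouring `φ` of `H` with one monochromatic edge,
whose ends are `e false` and `e true`. -/
noncomputable def ext (t : Fin (Q + 1)) (F : Bool → Fin (Q + 1)) (φ : Fin N → Fin (Q + 1))
    (e : Bool → Fin N) (ζ : ℕ → ℕ → Fin (Q + 1)) : W N Q → Fin (Q + 1) := by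
  classical
  exact fun x => match x with
  | .h v => φ v
  | .pal c => c
  | .a s v => if v = e s then t else F s
  | .m s v => if v = e s then F (!s) else t
  | .b s v => if v = e s then t else F (!s)
  | .p s v => if v < e s then F (!s) else (if v = e s then F s else t)
  | .r s i => if i ≤ (e s).castSucc then t else F (!s)
  | .z i => ζ i.1 i.2
  | .w i => if ∃ s, InB (e s) i then t else (if ζ i.1 i.2 = F false then F true else F false)
  | .g s i => if ∃ s, InB (e s) i then F s else t

theorem ext_proper (hFt : ∀ s, F s ≠ t) (hFF : ∀ s, F s ≠ F (!s))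
    (φ : Fin N → Fin (Q + 1)) (e : Bool → Fin N) (he : H.Adj (e false) (e true))
    (hφe : ∀ s, φ (e s) = t)
    (hφ : ∀ x y, H.Adj x y → φ x = φ y → s(x, y) = s(e false, e true))
    {ζ : ℕ → ℕ → Fin (Q + 1)} (hζ : ∀ r < Q, ∀ b : ℕ,
      (∀ v : Fin N, (v : ℕ) / sz Q r = b → ζ r b ≠ φ v) ∧
      ∀ r' < r, ζ r b ≠ ζ r' (b / (sz Q r' / sz Q r)))
    {x y : W N Q} (hxy : Rel H t F x y)
    (hne : s(x, y) ≠ s(W.h (e false), W.h (e true))) :
    ext t F φ e ζ x ≠ ext t F φ e ζ y := by
  have hFF' : ∀ s, F (!s) ≠ F s := fun s => (hFF s).symm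
  have htF : ∀ s, t ≠ F s := fun s => (hFt s).symm
  cases hxy with
  | hh huv =>
    intro h
    apply hne
    have := hφ _ _ huv h
    rw [Sym2.eq_iff] at this ⊢
    rcases this with ⟨h1, h2⟩ | ⟨h1, h2⟩
    · exact Or.inl ⟨by rw [h1], by rw [h2]⟩
    · exact Or.inr ⟨by rw [h1], by rw [h2]⟩
  | palpal h => exact h
  | pala h1 h2 =>
    simp only [ext]
    split_ifs <;> assumption
  | @ab u v huv =>
    simp only [ext]
    split_ifs with h1 h2 h2
    · exact absurd (by rw [h1, h2]; exact he) huv
    · exact htF _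
    · exact hFt _
    · exact hFF false
  | palm h1 h2 =>
    simp only [ext]
    split_ifs <;> assumption
  | palb h1 h2 =>
    simp only [ext]
    split_ifs <;> assumption
  | am =>
    simp only [ext]
    split_ifs
    · exact htF _
    · exact hFt _
  | mb =>
    simp only [ext]
    split_ifs
    · exact hFt _
    · exact htF _
  | @ag s v i hi =>
    simp only [ext]
    split_ifs with h1 h2 h2
    · exact htF _
    · exact absurd ⟨s, h1 ▸ hi⟩ h2
    · exact hFF _
    · exact hFt _
  | @bg s v i hi =>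
    simp only [ext]
    split_ifs with h1 h2 h2
    · exact htF _
    · exact absurd ⟨s, h1 ▸ hi⟩ h2
    · exact hFF' _
    · exact hFt _
  | palg h1 h2 =>
    simp only [ext]
    split_ifs <;> assumption
  | gw =>
    simp only [ext]
    split_ifs
    · exact hFt _
    · exact htF _
    · exact htF _
  | palw h1 h2 h3 =>
    simp only [ext]
    split_ifs <;> assumption
  | @wz i =>
    simp only [ext]
    split_ifs with h1 h2
    · obtain ⟨s, hs⟩ := h1
      exact hφe s ▸ ((hζ _ i.1.2 _).1 _ hs).symm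
    · rw [h2]
      exact hFF true
    · exact Ne.symm h2
  | @zh v i hi => exact (hζ _ i.1.2 _).1 _ hi
  | @zz v i j hi hj hij =>
    have h1 := (hζ _ i.1.2 i.2).2 _ hij
    unfold InB at hi hj
    rw [← hi, ← div_sz Q (le_of_lt hij), hj, hi] at h1
    exact h1
  | palp h1 h2 h3 =>
    simp only [ext]
    split_ifs <;> assumption
  | @pa s v =>
    simp only [ext]
    split_ifs with h1 h2 h2
    · exact hFt _
    · exact hFF' _
    · exact hFt _
    · exact htF _
  | @pr1 s v =>
    simp only [ext, Fin.castSucc_le_castSucc_iff]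
    split_ifs with h1 h2 h2 h3 h3
    · exact hFt _
    · exact absurd h1.le h2
    · exact hFt _
    · exact absurd h2.le h3
    · exact absurd (lt_of_le_of_ne h3 h2) h1
    · exact htF _
  | @pr2 s v =>
    simp only [ext, Fin.succ_le_castSucc_iff]
    split_ifs with h1 h2
    · exact hFt _
    · exact hFF _
    · exact htF _
  | palr h1 h2 =>
    simp only [ext]
    split_ifs <;> assumption
  | @palr0 s =>
    simp only [ext, Fin.zero_le, if_true]
    exact hFt _
  | @palrl s =>
    simp only [ext]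
    rw [if_neg (not_le.mpr (Fin.castSucc_lt_last _))]
    exact htF _

/-- Deleting an edge of `H` that is the only monochromatic edge of a colouring of `H` makes the
gadget graph colourable. -/
theorem gad_delete_colourable (hFt : ∀ s, F s ≠ t) (hFF : ∀ s, F s ≠ F (!s))
    {u v : Fin N} (huv : H.Adj u v) (φ : Fin N → Fin (Q + 1)) (hφuv : φ u = φ v)
    (hφ : ∀ x y, H.Adj x y → φ x = φ y → s(x, y) = s(u, v)) :
    ∃ ψ : W N Q → Fin (Q + 1), ∀ x y, (gad H t F).Adj x y → s(x, y) ≠ s(W.h u, W.h v) →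
      ψ x ≠ ψ y := by
  classical
  let φ' : Fin N → Fin (Q + 1) := fun x => Equiv.swap (φ u) t (φ x)
  let e : Bool → Fin N := fun s => cond s v u
  have hφe : ∀ s, φ' (e s) = t := by
    intro s
    cases s
    · simp [φ', e]
    · simp [φ', e, ← hφuv]
  have hφ' : ∀ x y, H.Adj x y → φ' x = φ' y → s(x, y) = s(e false, e true) := by
    intro x y hxy h
    exact hφ x y hxy ((Equiv.swap (φ u) t).injective h)
  obtain ⟨ζ, hζ⟩ := exists_block_colouring φ' Q le_rfl
  refine ⟨ext t F φ' e ζ, ?_⟩
  intro x y hxy hne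
  unfold gad at hxy
  rw [SimpleGraph.fromRel_adj] at hxy
  rcases hxy.2 with h | h
  · exact ext_proper hFt hFF φ' e huv hφe hφ' hζ h hne
  · refine (ext_proper hFt hFF φ' e huv hφe hφ' hζ h ?_).symm
    rw [Sym2.eq_swap]
    exact hne

end Pool.Agent.Lib.MP_4ffbdc_co.Log
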