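import Mathlib
import Pool.Agent.Lib.MP_4ffbdc_co.LogGadget
import Pool.Agent.Lib.MP_4ffbdc_co.Critical

/-!
Every subgraph `H` of a `(q+1)`-critical graph, `q ≥ 3`, is an induced subgraph of a
`(q+1)`-critical graph with `O(|V(H)| log q + q)` vertices.
-/

set_option autoImplicit false

namespace Pool.Agent.Lib.MP_4ffbdc_co.Log

/-- A finite graph that is not `q`-colourable contains a `(q+1)`-critical graph, and this graph
keeps every edge whose deletion makes the big graph `q`-colourable. -/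
theorem exists_critical_sub {V : Type} [Finite V] (Γ : SimpleGraph V) (q : ℕ) (hq : 0 < q)
    (hΓ : ¬ Γ.Colorable q) :
    ∃ m : ℕ, ∃ G : SimpleGraph (Fin m), ∃ g : Fin m → V, Function.Injective g ∧
      G.chromaticNumber = ((q + 1 : ℕ) : ℕ∞) ∧
      (∀ v w : Fin m, G.Adj v w →
        (G.deleteEdges {s(v, w)}).chromaticNumber < ((q + 1 : ℕ) : ℕ∞)) ∧
      (∀ v : Fin m, (G.induce ({v}ᶜ : Set (Fin m))).chromaticNumber < ((q + 1 : ℕ) : ℕ∞)) ∧
      (∀ x y, Γ.Adj x y → (Γ.deleteEdges {s(x, y)}).Colorable q →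
        ∃ i j, g i = x ∧ g j = y ∧ G.Adj i j) ∧
      ∀ i j, G.Adj i j → Γ.Adj (g i) (g j) := by
  classical
  obtain ⟨Γ', hle, hnc, hmin⟩ := exists_edge_minimal Γ q hΓ
  have : Fintype Γ'.support := Fintype.ofFinite _
  let m := Fintype.card Γ'.support
  let e : Fin m ≃ Γ'.support := (Fintype.equivFin Γ'.support).symm
  let g : Fin m → V := fun i => (e i : V)
  have hg : Function.Injective g := fun i j h => e.injective (Subtype.ext h)
  have hsurj : ∀ x ∈ Γ'.support, ∃ i, g i = x := by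
    intro x hx
    exact ⟨e.symm ⟨x, hx⟩, by simp [g]⟩
  have hsupp : ∀ i, ∃ y, Γ'.Adj (g i) y := fun i => (e i).2
  let G : SimpleGraph (Fin m) := Γ'.comap g
  have hGadj : ∀ i j, G.Adj i j ↔ Γ'.Adj (g i) (g j) := fun i j => Iff.rfl
  have hedge : ∀ x y, Γ'.Adj x y → ∃ i j, g i = x ∧ g j = y ∧ G.Adj i j := by
    intro x y hxy
    obtain ⟨i, hi⟩ := hsurj x ⟨y, hxy⟩
    obtain ⟨j, hj⟩ := hsurj y ⟨x, hxy.symm⟩
    exact ⟨i, j, hi, hj, by rw [hGadj, hi, hj]; exact hxy⟩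
  have hdel : ∀ v w, G.Adj v w → ∃ φ : Fin m → Fin q,
      ∀ i j, G.Adj i j → s(i, j) ≠ s(v, w) → φ i ≠ φ j := by
    intro v w hvw
    obtain ⟨φ, hφ⟩ := (colorable_iff_fun _ _).mp (hmin _ _ hvw)
    refine ⟨fun i => φ (g i), fun i j hij hne => hφ _ _ ?_⟩
    rw [SimpleGraph.deleteEdges_adj]
    refine ⟨hij, ?_⟩
    intro h
    apply hne
    rw [Set.mem_singleton_iff, Sym2.eq_iff] at h
    rw [Sym2.eq_iff]
    rcases h with ⟨h1, h2⟩ | ⟨h1, h2⟩
    · exact Or.inl ⟨hg h1, hg h2⟩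
    · exact Or.inr ⟨hg h1, hg h2⟩
  have hGnc : ¬ G.Colorable q := by
    intro hc
    obtain ⟨φ, hφ⟩ := (colorable_iff_fun _ _).mp hc
    apply hnc
    rw [colorable_iff_fun]
    refine ⟨fun x => if hx : x ∈ Γ'.support then φ (e.symm ⟨x, hx⟩) else ⟨0, hq⟩, ?_⟩
    intro x y hxy
    have hx : x ∈ Γ'.support := ⟨y, hxy⟩
    have hy : y ∈ Γ'.support := ⟨x, hxy.symm⟩
    simp only [dif_pos hx, dif_pos hy]
    apply hφ
    rw [hGadj]
    simpa [g] using hxy
  have hGedge : ∃ v w, G.Adj v w := by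
    by_contra h
    push Not at h
    apply hGnc
    rw [colorable_iff_fun]
    exact ⟨fun _ => ⟨0, hq⟩, fun x y hxy => absurd hxy (h x y)⟩
  refine ⟨m, G, g, hg, ?_, ?_, ?_, ?_, fun i j h => hle h⟩
  · refine chrom_eq_succ G q ?_ hGnc
    obtain ⟨v, w, hvw⟩ := hGedge
    obtain ⟨φ, hφ⟩ := hdel v w hvw
    rw [colorable_iff_fun]
    refine ⟨fun i => if i = v then Fin.last q else (φ i).castSucc, ?_⟩
    intro i j hij
    have hne : i ≠ j := hij.ne
    by_cases hi : i = v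
    · have hj : j ≠ v := fun h => hne (hi.trans h.symm)
      simp only [if_pos hi, if_neg hj]
      exact (Fin.castSucc_lt_last _).ne'
    · by_cases hj : j = v
      · simp only [if_neg hi, if_pos hj]
        exact (Fin.castSucc_lt_last _).ne
      · simp only [if_neg hi, if_neg hj]
        intro h
        refine hφ i j hij ?_ (Fin.castSucc_injective _ h)
        intro h2
        rw [Sym2.eq_iff] at h2
        rcases h2 with ⟨h1, _⟩ | ⟨_, h1⟩
        · exact hi h1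
        · exact hj h1
  · intro v w hvw
    rw [chrom_lt_succ_iff, colorable_iff_fun]
    obtain ⟨φ, hφ⟩ := hdel v w hvw
    refine ⟨φ, fun i j hij => ?_⟩
    rw [SimpleGraph.deleteEdges_adj] at hij
    exact hφ i j hij.1 (by simpa using hij.2)
  · intro v
    rw [chrom_lt_succ_iff, colorable_iff_fun]
    obtain ⟨y, hy⟩ := hsupp v
    obtain ⟨i, w, hi, hw, hiw⟩ := hedge _ _ hy
    have hiv : i = v := hg hi
    rw [hiv] at hiw
    obtain ⟨φ, hφ⟩ := hdel v w hiw
    refine ⟨fun i => φ i.1, fun i j hij => hφ _ _ hij ?_⟩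
    intro h2
    rw [Sym2.eq_iff] at h2
    rcases h2 with ⟨h1, _⟩ | ⟨_, h1⟩
    · exact i.2 h1
    · exact j.2 h1
  · intro x y hxy hc
    apply hedge
    by_contra hn
    apply hnc
    refine hc.mono_left ?_
    intro a b hab
    rw [SimpleGraph.deleteEdges_adj]
    refine ⟨hle hab, ?_⟩
    intro h
    rw [Set.mem_singleton_iff, Sym2.eq_iff] at h
    rcases h with ⟨h1, h2⟩ | ⟨h1, h2⟩
    · exact hn (by rw [← h1, ← h2]; exact hab)
    · exact hn (by rw [← h1, ← h2]; exact hab.symm)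

/-- The gadget followed by extraction of a critical subgraph. -/
theorem small_critical_fin {N : ℕ} (Q : ℕ) (hQ : 2 ≤ Q) (H : SimpleGraph (Fin N))
    (hH : ∀ u v, H.Adj u v → ∃ φ : Fin N → Fin (Q + 1), φ u = φ v ∧
      ∀ x y, H.Adj x y → φ x = φ y → s(x, y) = s(u, v))
    (hiso : ∀ u, ∃ v, H.Adj u v) :
    ∃ m : ℕ, ∃ G : SimpleGraph (Fin m),
      G.chromaticNumber = ((Q + 1 + 1 : ℕ) : ℕ∞) ∧
      (∀ v w : Fin m, G.Adj v w →
        (G.deleteEdges {s(v, w)}).chromaticNumber < ((Q + 1 + 1 : ℕ) : ℕ∞)) ∧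
      (∀ v : Fin m, (G.induce ({v}ᶜ : Set (Fin m))).chromaticNumber < ((Q + 1 + 1 : ℕ) : ℕ∞)) ∧
      Nonempty (H ↪g G) ∧ m ≤ 4 * (N * Nat.log 2 Q) + 15 * N + 5 * Q + 3 := by
  classical
  let t : Fin (Q + 1) := ⟨0, by omega⟩
  let F : Bool → Fin (Q + 1) := fun s => cond s ⟨2, by omega⟩ ⟨1, by omega⟩
  have hFt : ∀ s, F s ≠ t := by
    intro s
    cases s <;> simp [F, t, Fin.ext_iff]
  have hFF : ∀ s, F s ≠ F (!s) := by
    intro s
    cases s <;> simp [F, Fin.ext_iff]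
  have : Finite (W N Q) := finite_W
  have hnc : ¬ (gad H t F).Colorable (Q + 1) := by
    intro hc
    obtain ⟨ψ, hψ⟩ := (colorable_iff_fun _ _).mp hc
    exact gad_not_colourable ψ hψ
  obtain ⟨m, G, g, hg, h1, h2, h3, h4, h5⟩ :=
    exists_critical_sub (gad H t F) (Q + 1) (by omega) hnc
  have h6 : ∀ x y, H.Adj x y → ∃ i j, g i = W.h x ∧ g j = W.h y ∧ G.Adj i j := by
    intro x y hxy
    refine h4 _ _ (gad_adj_of_rel (Rel.hh hxy)) ?_
    obtain ⟨φ, hφ1, hφ2⟩ := hH x y hxy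
    obtain ⟨ψ, hψ⟩ := gad_delete_colourable hFt hFF hxy φ hφ1 hφ2
    rw [colorable_iff_fun]
    refine ⟨ψ, fun a b hab => ?_⟩
    rw [SimpleGraph.deleteEdges_adj] at hab
    exact hψ a b hab.1 (fun h => hab.2 (Set.mem_singleton_iff.mpr h))
  have hpre : ∀ v, ∃ i, g i = W.h v := fun v => by
    obtain ⟨w, hw⟩ := hiso v
    obtain ⟨i, -, hi, -, -⟩ := h6 v w hw
    exact ⟨i, hi⟩
  choose τ hτ using hpre
  refine ⟨m, G, h1, h2, h3, ⟨⟨⟨τ, fun u v h => ?_⟩, fun {u v} => ⟨fun h => ?_, fun h => ?_⟩⟩⟩, ?_⟩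
  · have h7 : (W.h u : W N Q) = W.h v := by rw [← hτ, ← hτ, h]
    injection h7
  · have h7 := h5 _ _ h
    simp only [Function.Embedding.coeFn_mk, hτ] at h7
    exact adj_of_gad h7
  · obtain ⟨i, j, hi, hj, hij⟩ := h6 u v h
    have a1 : i = τ u := hg (by rw [hi, hτ])
    have a2 : j = τ v := hg (by rw [hj, hτ])
    rw [a1, a2] at hij
    exact hij
  · have hc := Nat.card_le_card_of_injective g hg
    have hW := card_W_le (N := N) (Q := Q)
    rw [Nat.card_fin] at hc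
    exact hc.trans hW

/-- `H` with one pendant edge at every vertex -/
def pend {n : ℕ} (H : SimpleGraph (Fin n)) : SimpleGraph (Fin n ⊕ Fin n) where
  Adj x y := match x, y with
    | .inl u, .inl v => H.Adj u v
    | .inl u, .inr v => u = v
    | .inr u, .inl v => u = v
    | .inr _, .inr _ => False
  symm := ⟨fun x y h => by
    cases x <;> cases y
    · exact H.symm.symm _ _ h
    · exact Eq.symm h
    · exact Eq.symm h
    · exact h⟩
  loopless := ⟨fun x h => by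
    cases x
    · exact H.loopless.irrefl _ h
    · exact h⟩

theorem pend_colourings {n Q : ℕ} (hQ : 2 ≤ Q) (H : SimpleGraph (Fin n))
    (hc : H.Colorable (Q + 1))
    (hH : ∀ u v, H.Adj u v → ∃ φ : Fin n → Fin (Q + 1), φ u = φ v ∧
      ∀ x y, H.Adj x y → φ x = φ y → s(x, y) = s(u, v)) :
    ∀ u v, (pend H).Adj u v → ∃ φ : Fin n ⊕ Fin n → Fin (Q + 1), φ u = φ v ∧
      ∀ x y, (pend H).Adj x y → φ x = φ y → s(x, y) = s(u, v) := by
  classical
  have : Nontrivial (Fin (Q + 1)) := Fin.nontrivial_iff_two_le.2 (by omega)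
  choose o ho using fun c : Fin (Q + 1) => exists_ne c
  obtain ⟨χ, hχ⟩ := (colorable_iff_fun _ _).mp hc
  have key : ∀ u : Fin n, ∃ φ : Fin n ⊕ Fin n → Fin (Q + 1), φ (.inl u) = φ (.inr u) ∧
      ∀ x y, (pend H).Adj x y → φ x = φ y → s(x, y) = s(.inl u, .inr u) := fun u => by
    refine ⟨Sum.elim χ fun x => if x = u then χ x else o (χ x), by simp, fun x y hxy h => ?_⟩
    rcases x with x | x <;> rcases y with y | y
    · exact absurd h (hχ x y hxy)
    · obtain rfl : x = y := hxy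
      by_cases e : x = u
      · rw [e]
      · simp only [Sum.elim_inl, Sum.elim_inr, if_neg e] at h
        exact absurd h.symm (ho _)
    · obtain rfl : x = y := hxy
      by_cases e : x = u
      · rw [e, Sym2.eq_swap]
      · simp only [Sum.elim_inl, Sum.elim_inr, if_neg e] at h
        exact absurd h (ho _)
    · exact hxy.elim
  intro u v huv
  rcases u with u | u <;> rcases v with v | v
  · obtain ⟨φ, h1, h2⟩ := hH u v huv
    refine ⟨Sum.elim φ fun x => o (φ x), h1, fun x y hxy h => ?_⟩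
    rcases x with x | x <;> rcases y with y | y
    · have h3 := h2 x y hxy h
      rw [Sym2.eq_iff] at h3 ⊢
      rcases h3 with ⟨a1, a2⟩ | ⟨a1, a2⟩
      · exact Or.inl ⟨by rw [a1], by rw [a2]⟩
      · exact Or.inr ⟨by rw [a1], by rw [a2]⟩
    · obtain rfl : x = y := hxy
      exact absurd h.symm (ho _)
    · obtain rfl : x = y := hxy
      exact absurd h (ho _)
    · exact hxy.elim
  · obtain rfl : u = v := huv
    exact key u
  · obtain rfl : u = v := huv
    obtain ⟨φ, h1, h2⟩ := key u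
    exact ⟨φ, h1.symm, fun x y hxy h => (h2 x y hxy h).trans Sym2.eq_swap⟩
  · exact huv.elim

theorem small_critical (Q : ℕ) (hQ : 2 ≤ Q) (n : ℕ) (H : SimpleGraph (Fin n))
    (m₀ : ℕ) (G₀ : SimpleGraph (Fin m₀))
    (h1 : G₀.chromaticNumber = ((Q + 1 + 1 : ℕ) : ℕ∞))
    (h2 : ∀ v w : Fin m₀, G₀.Adj v w →
      (G₀.deleteEdges {s(v, w)}).chromaticNumber < ((Q + 1 + 1 : ℕ) : ℕ∞))
    (h3 : ∀ v : Fin m₀,
      (G₀.induce ({v}ᶜ : Set (Fin m₀))).chromaticNumber < ((Q + 1 + 1 : ℕ) : ℕ∞))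
    (f : H →g G₀) (hf : Function.Injective f) :
    ∃ m : ℕ, ∃ G : SimpleGraph (Fin m),
      G.chromaticNumber = ((Q + 1 + 1 : ℕ) : ℕ∞) ∧
      (∀ v w : Fin m, G.Adj v w →
        (G.deleteEdges {s(v, w)}).chromaticNumber < ((Q + 1 + 1 : ℕ) : ℕ∞)) ∧
      (∀ v : Fin m, (G.induce ({v}ᶜ : Set (Fin m))).chromaticNumber < ((Q + 1 + 1 : ℕ) : ℕ∞)) ∧
      Nonempty (H ↪g G) ∧ m ≤ 8 * (n * Nat.log 2 Q) + 30 * n + 5 * Q + 3 := by
  classical
  have hnc : ¬ G₀.Colorable (Q + 1) := by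
    intro hc
    have := (chrom_lt_succ_iff G₀ (Q + 1)).mpr hc
    rw [h1] at this
    exact lt_irrefl _ this
  by_cases hc : H.Colorable (Q + 1)
  swap
  · have hs : Function.Surjective f := fun v => by
      by_contra hv
      apply hc
      obtain ⟨φ, hφ⟩ := (colorable_iff_fun _ _).mp ((chrom_lt_succ_iff _ _).mp (h3 v))
      rw [colorable_iff_fun]
      exact ⟨fun x => φ ⟨f x, fun h => hv ⟨x, h⟩⟩, fun x y hxy => hφ _ _ (f.map_rel hxy)⟩
    refine ⟨m₀, G₀, h1, h2, h3, ⟨⟨⟨f, hf⟩, fun {u v} => ⟨fun h => ?_, fun h => f.map_rel h⟩⟩⟩, ?_⟩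
    · by_contra huv
      apply hc
      obtain ⟨φ, hφ⟩ := (colorable_iff_fun _ _).mp ((chrom_lt_succ_iff _ _).mp (h2 _ _ h))
      rw [colorable_iff_fun]
      refine ⟨fun x => φ (f x), fun x y hxy => hφ _ _ ?_⟩
      rw [SimpleGraph.deleteEdges_adj]
      refine ⟨f.map_rel hxy, fun hm => huv ?_⟩
      rw [Set.mem_singleton_iff, Sym2.eq_iff] at hm
      rcases hm with ⟨a1, a2⟩ | ⟨a1, a2⟩
      · rw [← hf a1, ← hf a2]
        exact hxy
      · rw [← hf a1, ← hf a2]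
        exact hxy.symm
    · have := Fintype.card_le_of_surjective f hs
      simp only [Fintype.card_fin] at this
      omega
  have hH : ∀ u v, H.Adj u v → ∃ φ : Fin n → Fin (Q + 1), φ u = φ v ∧
      ∀ x y, H.Adj x y → φ x = φ y → s(x, y) = s(u, v) := by
    intro u v huv
    obtain ⟨φ, hφ⟩ := (colorable_iff_fun _ _).mp
      ((chrom_lt_succ_iff _ _).mp (h2 _ _ (f.map_rel huv)))
    have hφ' : ∀ x y, G₀.Adj x y → φ x = φ y → s(x, y) = s(f u, f v) := by
      intro x y hxy h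
      by_contra hne
      refine hφ x y ?_ h
      rw [SimpleGraph.deleteEdges_adj]
      exact ⟨hxy, fun h => hne (Set.mem_singleton_iff.mp h)⟩
    refine ⟨fun i => φ (f i), ?_, ?_⟩
    · show φ (f u) = φ (f v)
      by_contra hne
      apply hnc
      rw [colorable_iff_fun]
      refine ⟨φ, fun x y hxy h => ?_⟩
      have h5 := hφ' x y hxy h
      rw [Sym2.eq_iff] at h5
      rcases h5 with ⟨a1, a2⟩ | ⟨a1, a2⟩
      · exact hne (by rw [← a1, ← a2]; exact h)
      · exact hne (by rw [← a1, ← a2]; exact h.symm)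
    · intro x y hxy h
      have h5 := hφ' _ _ (f.map_rel hxy) h
      rw [Sym2.eq_iff] at h5 ⊢
      rcases h5 with ⟨a1, a2⟩ | ⟨a1, a2⟩
      · exact Or.inl ⟨hf a1, hf a2⟩
      · exact Or.inr ⟨hf a1, hf a2⟩
  let e : Fin (n + n) ≃ Fin n ⊕ Fin n := finSumFinEquiv.symm
  obtain ⟨m, G, k1, k2, k3, ⟨j⟩, k5⟩ := small_critical_fin Q hQ ((pend H).comap e)
    (fun u v huv => by
      obtain ⟨φ, a1, a2⟩ := pend_colourings hQ H hc hH _ _ huv
      refine ⟨fun x => φ (e x), a1, fun x y hxy h => ?_⟩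
      have a3 := a2 _ _ hxy h
      rw [Sym2.eq_iff] at a3 ⊢
      rcases a3 with ⟨b1, b2⟩ | ⟨b1, b2⟩
      · exact Or.inl ⟨e.injective b1, e.injective b2⟩
      · exact Or.inr ⟨e.injective b1, e.injective b2⟩)
    (fun u => by
      refine ⟨e.symm (e u).swap, ?_⟩
      show (pend H).Adj (e u) (e (e.symm (e u).swap))
      rw [e.apply_symm_apply]
      rcases e u with x | x <;> exact rfl)
  refine ⟨m, G, k1, k2, k3, ⟨j.comp ⟨⟨fun x => e.symm (.inl x), fun x y h => ?_⟩, fun {x y} => ?_⟩⟩,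
    ?_⟩
  · exact Sum.inl_injective (e.symm.injective h)
  · show (pend H).Adj (e (e.symm (.inl x))) (e (e.symm (.inl y))) ↔ _
    rw [e.apply_symm_apply, e.apply_symm_apply]
    exact Iff.rfl
  · rw [Nat.add_mul] at k5
    omega

end Pool.Agent.Lib.MP_4ffbdc_co.Log
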