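import Mathlib
import Pool.Agent.Lib.MP_4ffbdc_co.Gadget
import Pool.Agent.Lib.MP_4ffbdc_co.Critical

/-!
Every subgraph `H` of a `(q+1)`-critical graph, `q ≥ 3`, lies in a `(q+1)`-critical graph with at
most `42 q |V(H)|` vertices.
-/

set_option autoImplicit false

namespace Pool.Agent.Lib.MP_4ffbdc_co

/-- The gadget with colours `Fin q`, followed by extraction of a critical subgraph. -/
theorem small_critical_of_edge_colourings {N : ℕ} (q : ℕ) (hq : 3 ≤ q) (H : SimpleGraph (Fin N))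
    (hH : ∀ u v, H.Adj u v → ∃ φ : Fin N → Fin q, φ u = φ v ∧
      ∀ x y, H.Adj x y → φ x = φ y → s(x, y) = s(u, v)) :
    ∃ m : ℕ, ∃ G : SimpleGraph (Fin m), ∃ V : Type, ∃ g : Fin m → V, ∃ ι : Fin N → V,
      Function.Injective g ∧ Function.Injective ι ∧
      G.chromaticNumber = ((q + 1 : ℕ) : ℕ∞) ∧
      (∀ v w : Fin m, G.Adj v w →
        (G.deleteEdges {s(v, w)}).chromaticNumber < ((q + 1 : ℕ) : ℕ∞)) ∧
      (∀ v : Fin m, (G.induce ({v}ᶜ : Set (Fin m))).chromaticNumber < ((q + 1 : ℕ) : ℕ∞)) ∧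
      (∀ x y, H.Adj x y → ∃ i j, g i = ι x ∧ g j = ι y ∧ G.Adj i j) ∧
      m ≤ 14 * (N + 1) * q := by
  classical
  let t : Fin q := ⟨0, by omega⟩
  let c1 : Fin q := ⟨1, by omega⟩
  let c2 : Fin q := ⟨2, by omega⟩
  let F : Bool → Fin q := fun s => cond s c2 c1
  let w : Fin q → Fin q := fun j => if j = c1 then c2 else c1
  have hFt : ∀ s, F s ≠ t := by
    intro s
    cases s <;> simp [F, t, c1, c2]
  have hFF : ∀ s, F s ≠ F (!s) := by
    intro s
    cases s <;> simp [F, c1, c2]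
  have hw1 : ∀ j, w j ≠ j := by
    intro j
    simp only [w]
    split_ifs with h
    · rw [h]; simp [c1, c2]
    · exact fun h2 => h h2.symm
  have hw2 : ∀ j, w j ≠ t := by
    intro j
    simp only [w]
    split_ifs with h <;> simp [t, c1, c2]
  have : Finite (W N (Fin q)) := finite_W t
  have hnc : ¬ (gad H t F w).Colorable q := by
    intro hc
    obtain ⟨ψ, hψ⟩ := (colorable_iff_fun _ _).mp hc
    exact gad_not_colourable ψ hψ
  obtain ⟨m, G, g, hg, h1, h2, h3, h4⟩ := exists_critical (gad H t F w) q (by omega) hnc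
  refine ⟨m, G, W N (Fin q), g, W.h, hg, fun x y h => by injection h, h1, h2, h3, ?_, ?_⟩
  · intro x y hxy
    refine h4 _ _ (gad_adj_of_rel (Rel.hh hxy)) ?_
    obtain ⟨φ, hφ1, hφ2⟩ := hH x y hxy
    obtain ⟨ψ, hψ⟩ := gad_delete_colourable hFt hFF hw1 hw2 hxy φ hφ1 hφ2
    rw [colorable_iff_fun]
    refine ⟨ψ, fun a b hab => ?_⟩
    rw [SimpleGraph.deleteEdges_adj] at hab
    exact hψ a b hab.1 (fun h => hab.2 (Set.mem_singleton_iff.mpr h))
  · have hc := Nat.card_le_card_of_injective g hg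
    have hW := card_W_le (N := N) t
    simp only [Nat.card_eq_fintype_card, Fintype.card_fin] at hc hW
    exact hc.trans hW

theorem small_critical (q : ℕ) (hq : 3 ≤ q) (n : ℕ) (hn : 0 < n) (H : SimpleGraph (Fin n))
    (m₀ : ℕ) (G₀ : SimpleGraph (Fin m₀))
    (h1 : G₀.chromaticNumber = ((q + 1 : ℕ) : ℕ∞))
    (h2 : ∀ v w : Fin m₀, G₀.Adj v w →
      (G₀.deleteEdges {s(v, w)}).chromaticNumber < ((q + 1 : ℕ) : ℕ∞))
    (h3 : ∀ v : Fin m₀,
      (G₀.induce ({v}ᶜ : Set (Fin m₀))).chromaticNumber < ((q + 1 : ℕ) : ℕ∞))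
    (f : H →g G₀) (hf : Function.Injective f) :
    ∃ m : ℕ, ∃ G : SimpleGraph (Fin m),
      G.chromaticNumber = ((q + 1 : ℕ) : ℕ∞) ∧
      (∀ v w : Fin m, G.Adj v w →
        (G.deleteEdges {s(v, w)}).chromaticNumber < ((q + 1 : ℕ) : ℕ∞)) ∧
      (∀ v : Fin m, (G.induce ({v}ᶜ : Set (Fin m))).chromaticNumber < ((q + 1 : ℕ) : ℕ∞)) ∧
      (∃ f : H →g G, Function.Injective f) ∧
      m ≤ 42 * q * n := by
  classical
  have hnc : ¬ G₀.Colorable q := by
    intro hc
    have := (chrom_lt_succ_iff G₀ q).mpr hc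
    rw [h1] at this
    exact lt_irrefl _ this
  have hnb : ∀ v, ∃ w, G₀.Adj v w := fun v =>
    exists_neighbour G₀ q (by omega) hnc v ((chrom_lt_succ_iff _ q).mp (h3 v))
  choose nb hnb using hnb
  let S : Finset (Fin m₀) :=
    Finset.univ.image (fun v => f v) ∪ Finset.univ.image (fun v => nb (f v))
  have hS : S.card ≤ 2 * n := by
    have a1 : (Finset.univ.image (fun v => f v)).card ≤ n := by
      simpa using Finset.card_image_le (s := Finset.univ) (f := fun v => f v)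
    have a2 : (Finset.univ.image (fun v => nb (f v))).card ≤ n := by
      simpa using Finset.card_image_le (s := Finset.univ) (f := fun v => nb (f v))
    have a3 := Finset.card_union_le (Finset.univ.image (fun v => f v))
      (Finset.univ.image (fun v => nb (f v)))
    simp only [S]
    omega
  let N := S.card
  let γ : Fin N → Fin m₀ := fun i => (S.equivFin.symm i : Fin m₀)
  have hγ : Function.Injective γ := fun i j h => S.equivFin.symm.injective (Subtype.ext h)
  have hγs : ∀ x ∈ S, ∃ i, γ i = x := fun x hx => ⟨S.equivFin ⟨x, hx⟩, by simp [γ]⟩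
  have hfS : ∀ v, ∃ i, γ i = f v := fun v => hγs _ (by simp [S])
  have hnS : ∀ v, ∃ i, γ i = nb (f v) := fun v => hγs _ (by simp [S])
  choose ρ hρ using hfS
  let H' : SimpleGraph (Fin N) := G₀.comap γ
  have hH' : ∀ u v, H'.Adj u v → ∃ φ : Fin N → Fin q, φ u = φ v ∧
      ∀ x y, H'.Adj x y → φ x = φ y → s(x, y) = s(u, v) := by
    intro u v huv
    have hc := (chrom_lt_succ_iff _ q).mp (h2 _ _ huv)
    obtain ⟨φ, hφ⟩ := (colorable_iff_fun _ _).mp hc
    have hφ' : ∀ x y, G₀.Adj x y → φ x = φ y → s(x, y) = s(γ u, γ v) := by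
      intro x y hxy h
      by_contra hne
      refine hφ x y ?_ h
      rw [SimpleGraph.deleteEdges_adj]
      exact ⟨hxy, fun h => hne (Set.mem_singleton_iff.mp h)⟩
    refine ⟨fun i => φ (γ i), ?_, ?_⟩
    · show φ (γ u) = φ (γ v)
      by_contra hne
      apply hnc
      rw [colorable_iff_fun]
      refine ⟨φ, fun x y hxy h => ?_⟩
      have h5 := hφ' x y hxy h
      rw [Sym2.eq_iff] at h5
      rcases h5 with ⟨a1, a2⟩ | ⟨a1, a2⟩
      · exact hne (by rw [← a1, ← a2]; exact h)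
      · exact hne (by rw [← a1, ← a2]; exact h.symm)
    · intro x y hxy h
      have h5 := hφ' _ _ hxy h
      rw [Sym2.eq_iff] at h5 ⊢
      rcases h5 with ⟨a1, a2⟩ | ⟨a1, a2⟩
      · exact Or.inl ⟨hγ a1, hγ a2⟩
      · exact Or.inr ⟨hγ a1, hγ a2⟩
  obtain ⟨m, G, V, g, ι, hg, hι, k1, k2, k3, k4, k5⟩ :=
    small_critical_of_edge_colourings q hq H' hH'
  have hpre : ∀ v, ∃ i, g i = ι (ρ v) := by
    intro v
    obtain ⟨j, hj⟩ := hnS v
    have : H'.Adj (ρ v) j := by
      show G₀.Adj (γ (ρ v)) (γ j)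
      rw [hρ, hj]
      exact hnb _
    obtain ⟨i, _, hi, _, _⟩ := k4 _ _ this
    exact ⟨i, hi⟩
  choose τ hτ using hpre
  refine ⟨m, G, k1, k2, k3, ⟨⟨τ, ?_⟩, ?_⟩, ?_⟩
  · intro u v huv
    have : H'.Adj (ρ u) (ρ v) := by
      show G₀.Adj (γ (ρ u)) (γ (ρ v))
      rw [hρ, hρ]
      exact f.map_rel huv
    obtain ⟨i, j, hi, hj, hij⟩ := k4 _ _ this
    have a1 : i = τ u := hg (by rw [hi, hτ])
    have a2 : j = τ v := hg (by rw [hj, hτ])
    rw [← a1, ← a2]
    exact hij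
  · intro u v huv
    have a1 : τ u = τ v := huv
    have a2 : ρ u = ρ v := hι (by rw [← hτ, ← hτ, a1])
    apply hf
    rw [← hρ, ← hρ, a2]
  · have a1 : N + 1 ≤ 3 * n := by simp only [N]; omega
    calc m ≤ 14 * (N + 1) * q := k5
      _ ≤ 14 * (3 * n) * q := by gcongr
      _ = 42 * q * n := by ring

end Pool.Agent.Lib.MP_4ffbdc_co
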